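import Mathlib
import Pool.Agent.X34.CY.Stm

set_option autoImplicit false

namespace Pool.Agent.X224.CY.Cd

open Finset Pool.Agent.X34.CY

theorem mem_Wd {k R : ℕ} {w : Fin k → ℤ} : w ∈ Wd k R ↔ (∀ i, 0 ≤ w i) ∧ ∑ i, w i ≤ (R : ℤ) := by
  unfold Wd
  simp only [mem_filter, Fintype.mem_piFinset, mem_Icc]
  constructor
  · rintro ⟨h1, h2⟩
    exact ⟨fun i => (h1 i).1, h2⟩
  · rintro ⟨h1, h2⟩
    refine ⟨fun i => ⟨h1 i, ?_⟩, h2⟩
    exact (Finset.single_le_sum (fun j _ => h1 j) (mem_univ i)).trans h2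

theorem card_Wd (k R : ℕ) : (Wd k R).card = (R + k).choose k := by
  have h1 : (Wd k R).card = (piAntidiag (univ : Finset (Fin (k + 1))) R).card := by
    refine Finset.card_nbij' (fun w => (Fin.cons (R - ∑ i, (w i).toNat) (fun i => (w i).toNat) : Fin (k + 1) → ℕ))
      (fun f i => (f i.succ : ℤ)) ?_ ?_ ?_ ?_
    · intro w hw
      rw [mem_coe, mem_Wd] at hw
      obtain ⟨h0, hs⟩ := hw
      rw [mem_coe, mem_piAntidiag]
      refine ⟨?_, fun i _ => mem_univ i⟩
      rw [Fin.sum_univ_succ]
      simp only [Fin.cons_zero, Fin.cons_succ]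
      apply Nat.sub_add_cancel
      have : ((∑ i, (w i).toNat : ℕ) : ℤ) ≤ (R : ℤ) := by
        rw [Nat.cast_sum]
        refine le_trans (le_of_eq ?_) hs
        exact Finset.sum_congr rfl fun i _ => Int.toNat_of_nonneg (h0 i)
      exact_mod_cast this
    · intro f hf
      rw [mem_coe, mem_piAntidiag] at hf
      rw [mem_coe, mem_Wd]
      refine ⟨fun i => Int.natCast_nonneg _, ?_⟩
      have h := hf.1
      rw [Fin.sum_univ_succ] at h
      have h2 : ∑ i : Fin k, f i.succ ≤ R := by omega
      have h3 : ∑ i : Fin k, (f i.succ : ℤ) ≤ (R : ℤ) := by exact_mod_cast h2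
      exact h3
    · intro w hw
      rw [mem_coe, mem_Wd] at hw
      funext i
      simp only [Fin.cons_succ]
      exact Int.toNat_of_nonneg (hw.1 i)
    · intro f hf
      rw [mem_coe, mem_piAntidiag] at hf
      have h := hf.1
      rw [Fin.sum_univ_succ] at h
      funext i
      refine Fin.cases ?_ (fun i => ?_) i
      · simp only [Fin.cons_zero, Int.toNat_natCast]
        omega
      · simp only [Fin.cons_succ, Int.toNat_natCast]
  have h2 : (piAntidiag (univ : Finset (Fin (k + 1))) R).card =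
      (finsuppAntidiag (univ : Finset (Fin (k + 1))) R).card := by
    refine Finset.card_nbij' (fun f => (Finsupp.equivFunOnFinite.symm f : Fin (k + 1) →₀ ℕ)) (fun f => (f : Fin (k + 1) → ℕ))
      ?_ ?_ ?_ ?_
    · intro f hf
      rw [mem_coe, mem_piAntidiag] at hf
      rw [mem_coe, mem_finsuppAntidiag]
      exact ⟨hf.1, subset_univ _⟩
    · intro f hf
      rw [mem_coe, mem_finsuppAntidiag] at hf
      rw [mem_coe, mem_piAntidiag]
      exact ⟨hf.1, fun i _ => mem_univ i⟩
    · intro f hf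
      rfl
    · intro f hf
      ext i
      rfl
  rw [h1, h2, card_finsuppAntidiag_nat_eq_choose]
  simp only [card_univ, Fintype.card_fin]
  rw [show k + 1 + R - 1 = R + k from by omega]
  exact (Nat.choose_symm_add).symm ▸ rfl

theorem t_CD : S_CD := by
  intro k R hk
  have hup : ∀ S : ℕ, (Wd k S).card * k.factorial ≤ (S + k) ^ k := by
    intro S
    rw [card_Wd, mul_comm, ← Nat.descFactorial_eq_factorial_mul_choose]
    exact Nat.descFactorial_le_pow _ _
  refine ⟨?_, hup R, ?_⟩
  · rw [card_Wd, ← Nat.descFactorial_eq_factorial_mul_choose]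
    refine le_trans ?_ (Nat.pow_sub_le_descFactorial _ _)
    exact Nat.pow_le_pow_left (by omega) _
  · intro g hg w hw
    have hg0 : (0 : ℤ) < g := by exact_mod_cast hg
    have h1 : ((Wd k R).filter fun w' => ∀ i, (g : ℤ) ∣ w' i - w i).card ≤ (Wd k (R / g)).card := by
      refine Finset.card_le_card_of_injOn (fun w' i => w' i / (g : ℤ)) ?_ ?_
      · intro w' hw'
        rw [mem_coe, mem_filter, mem_Wd] at hw'
        obtain ⟨⟨h0, hs⟩, -⟩ := hw'
        rw [mem_coe, mem_Wd]
        refine ⟨fun i => Int.ediv_nonneg (h0 i) hg0.le, ?_⟩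
        rw [Int.natCast_div]
        rw [Int.le_ediv_iff_mul_le hg0]
        rw [Finset.sum_mul]
        refine le_trans (Finset.sum_le_sum fun i _ => ?_) hs
        exact Int.ediv_mul_le _ hg0.ne'
      · intro a ha b hb hab
        rw [mem_coe, mem_filter] at ha hb
        funext i
        have h2 : a i / (g : ℤ) = b i / (g : ℤ) := congrFun hab i
        have h3 : a i % (g : ℤ) = b i % (g : ℤ) := by
          have h4 : (g : ℤ) ∣ a i - b i := by
            have := dvd_sub (ha.2 i) (hb.2 i)
            rwa [sub_sub_sub_cancel_right] at this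
          exact Int.emod_eq_emod_iff_emod_sub_eq_zero.2 (Int.emod_eq_zero_of_dvd h4)
        rw [← Int.mul_ediv_add_emod (a i) g, ← Int.mul_ediv_add_emod (b i) g, h2, h3]
    have h2 : (((Wd k R).filter fun w' => ∀ i, (g : ℤ) ∣ w' i - w i).card * k.factorial : ℕ) ≤
        (R / g + k) ^ k := (Nat.mul_le_mul_right _ h1).trans (hup _)
    have h3 : (((Wd k R).filter fun w' => ∀ i, (g : ℤ) ∣ w' i - w i).card : ℝ) * k.factorial ≤
        (((R / g : ℕ) : ℝ) + k) ^ k := by exact_mod_cast h2
    refine h3.trans ?_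
    apply pow_le_pow_left₀ (by positivity)
    have : ((R / g : ℕ) : ℝ) ≤ (R : ℝ) / g := Nat.cast_div_le
    linarith

end Pool.Agent.X224.CY.Cd
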